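import Pool.Agent.Helper67.NO.St2

/-!
# Project NO (MP_26be5b_ag), module BF2
-/

set_option autoImplicit false

namespace Pool.Agent.Helper11.NO

open Pool.Agent.Helper67.NO Matrix
open scoped Matrix.Norms.Frobenius ContDiff Topology

section aux

variable {n : Type} [Fintype n] [DecidableEq n]

/-- the derivative of the moment map along a conjugation -/
def dX (a b x : Matrix n n ℂ) : Matrix n n ℂ := dm a b (br x a) (br x b)

theorem dX_sub (a b x y : Matrix n n ℂ) : dX a b (x - y) = dX a b x - dX a b y := by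
  simp only [dX, dm, br, conjTranspose_sub, conjTranspose_mul]
  noncomm_ring

theorem dX_herm (a b x : Matrix n n ℂ) : (dX a b x)ᴴ = dX a b x := by
  simp only [dX, dm, br, conjTranspose_add, conjTranspose_sub, conjTranspose_mul,
    conjTranspose_conjTranspose]
  noncomm_ring

theorem dX_eq (a b x : Matrix n n ℂ) : dX a b x =
    (br (br x a) aᴴ + br (br x b) bᴴ) + (br (br x a) aᴴ + br (br x b) bᴴ)ᴴ := by
  simp only [dX, dm, br, conjTranspose_add, conjTranspose_sub, conjTranspose_mul,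
    conjTranspose_conjTranspose]
  noncomm_ring

theorem trace_herm_im {x y : Matrix n n ℂ} (hx : xᴴ = x) (hy : yᴴ = y) :
    (trace (x * y)).im = 0 := by
  have h1 : trace ((x * y)ᴴ) = star (trace (x * y)) := trace_conjTranspose _
  rw [conjTranspose_mul, hx, hy, trace_mul_comm] at h1
  have h2 := congrArg Complex.im h1
  rw [Complex.star_def, Complex.conj_im] at h2
  linarith

theorem trace_self_br (x h : Matrix n n ℂ) : trace (x * br x h) = 0 := by
  have h1 : x * br x h = x * (x * h) - x * h * x := by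
    simp only [br]
    noncomm_ring
  rw [h1, trace_sub, trace_mul_comm (x * h) x, sub_self]

theorem trace_br_cyc (p q h : Matrix n n ℂ) : trace (p * br q h) = trace (br p q * h) := by
  have h1 : p * br q h = p * q * h - p * h * q := by
    simp only [br]
    noncomm_ring
  have h2 : br p q * h = p * q * h - q * (p * h) := by
    simp only [br]
    noncomm_ring
  rw [h1, h2, trace_sub, trace_sub, trace_mul_comm (p * h) q]

theorem br_anti (p q : Matrix n n ℂ) : br p q = - br q p := by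
  simp only [br]
  noncomm_ring

theorem br_smul_left (c : ℂ) (p q : Matrix n n ℂ) : br (c • p) q = c • br p q := by
  simp only [br, smul_mul_assoc, mul_smul_comm, smul_sub]

end aux

theorem pBF2 (_h1 : StBL) (h2 : StLVL) (h3 : StBDA) (h4 : StALG) (h5 : StGEN) (h6 : StBF1) :
    StBF2 := by
  intro ι κ _ _ _ _ lev A H a b θ DH hCh hSt hmom hHor hadd hDH
  obtain ⟨bmul, bun, bsmul, bone, bzero, binj, binv⟩ := h3 ι κ
  obtain ⟨a1, a2, a3, a4, a5, a6, a7, a8, a9⟩ := h4 (ι ⊕ κ)
  obtain ⟨g1, g2⟩ := h5 ι κ lev a b hCh.2.1 hSt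
  obtain ⟨l1, l0, ladd, lsmul, lun, linv⟩ := h2 κ lev
  obtain ⟨Badd, Bsmul, Bsymm, Bnn, Bker, Bquat, Bimag⟩ := h6 ι κ lev A H a b θ hCh hSt hmom hHor
  have hDH' : ∀ X, ∃ η : Matrix κ κ ℂ, Lvl lev η ∧ η.IsHermitian ∧
      dX a b (bd X η) = bd (DH X) 0 := hDH
  -- (u)
  have hu : ∀ (η : Matrix κ κ ℂ) (D : Matrix ι ι ℂ), η.IsHermitian →
      dX a b (bd 0 η) = bd D 0 → η = 0 := by
    intro η D hη hd
    have e1 : (bd (0 : Matrix ι ι ℂ) η)ᴴ = bd 0 η := by
      rw [(bun 0 η).1, conjTranspose_zero, hη.eq]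
    have e2 := a3 (bd 0 η) a b (br (bd 0 η) a) (br (bd 0 η) b)
    rw [e1, a4] at e2
    have e3 : dm a b (br (bd 0 η) a) (br (bd 0 η) b) = bd D 0 := hd
    rw [e3, (bmul _ _ _ _).1, (bun _ _).2.2.1, zero_mul, mul_zero, trace_zero, trace_zero,
      add_zero] at e2
    have e4 : nsq (br (bd 0 η) a) (br (bd 0 η) b) = 0 := by
      have e5 := congrArg Complex.re e2
      rw [Complex.add_re, Complex.star_def, Complex.conj_re, Complex.ofReal_re,
        Complex.zero_re] at e5
      linarith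
    exact g2 η (a9 _ _ e4).2
  have hsubH : ∀ η η' : Matrix κ κ ℂ, η.IsHermitian → η'.IsHermitian → (η - η').IsHermitian :=
    fun η η' h h' => h.sub h'
  have hbsub : ∀ (X : Matrix ι ι ℂ) (η η' : Matrix κ κ ℂ), bd X η - bd X η' = bd 0 (η - η') := by
    intro X η η'
    rw [(bmul _ _ _ _).2.2.1, sub_self]
  -- (h)
  have hh : ∀ X : Matrix ι ι ℂ, X.IsHermitian →
      (θ X).IsHermitian ∧ dX a b (bd X (θ X)) = bd (DH X) 0 := by
    intro X hX
    have hθ : (θ X).IsHermitian := by
      have e1 := hHor.star X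
      rw [hX.eq] at e1
      exact e1.symm
    refine ⟨hθ, ?_⟩
    obtain ⟨η, _, hη, hd⟩ := hDH' X
    obtain ⟨h, hh⟩ := hHor.hor X
    have e2 : dX a b (bd X (θ X)) = bd (h + hᴴ) 0 := by
      rw [dX_eq, hh, (bun _ _).1, (bmul _ _ _ _).2.1, conjTranspose_zero, add_zero]
    have e3 : dX a b (bd 0 (η - θ X)) = bd (DH X - (h + hᴴ)) 0 := by
      rw [← hbsub X η (θ X), dX_sub, hd, e2, (bmul _ _ _ _).2.2.1, sub_zero]
    have e4 := hu _ _ (hsubH _ _ hη hθ) e3
    rw [sub_eq_zero] at e4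
    rw [← e4]
    exact hd
  have hreal : ∀ X Y : Matrix ι ι ℂ, X.IsHermitian → Y.IsHermitian →
      (trace (Y * DH X)).re = 2 * (BB a b θ X Y).re := by
    intro X Y hX hY
    obtain ⟨_, hdX⟩ := hh X hX
    obtain ⟨hθY, _⟩ := hh Y hY
    have e1 : (bd Y (θ Y))ᴴ = bd Y (θ Y) := by
      rw [(bun _ _).1, hY.eq, hθY.eq]
    have e2 := a3 (bd Y (θ Y)) a b (br (bd X (θ X)) a) (br (bd X (θ X)) b)
    have e3 : dm a b (br (bd X (θ X)) a) (br (bd X (θ X)) b) = bd (DH X) 0 := hdX
    rw [e1, e3, (bmul _ _ _ _).1, (bun _ _).2.2.1, mul_zero, trace_zero, add_zero] at e2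
    have e4 : ip (br (bd Y (θ Y)) a) (br (bd Y (θ Y)) b) (br (bd X (θ X)) a)
        (br (bd X (θ X)) b) = BB a b θ Y X := rfl
    rw [e4, Bsymm X Y, star_star] at e2
    rw [e2, Complex.add_re, Complex.star_def, Complex.conj_re]
    ring
  -- (s)
  have hskew : ∀ K : Matrix ι ι ℂ, Kᴴ = -K → DH K = br K H := by
    intro K hK
    obtain ⟨η, _, hη, hd⟩ := hDH' K
    have e1 : (bd K (0 : Matrix κ κ ℂ))ᴴ = - bd K 0 := by
      rw [(bun _ _).1, hK, conjTranspose_zero, (bun K 0).2.1, neg_zero]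
    have e2 : dX a b (bd K (0 : Matrix κ κ ℂ)) = bd (br K H) 0 := by
      have e3 := a6 (bd K (0 : Matrix κ κ ℂ)) a b e1
      rw [hmom, (bmul _ _ _ _).2.2.2] at e3
      have e4 : br (0 : Matrix κ κ ℂ) 0 = 0 := by simp [br]
      rw [e4] at e3
      exact e3
    have e3 : dX a b (bd 0 (η - 0)) = bd (DH K - br K H) 0 := by
      rw [← hbsub K η 0, dX_sub, hd, e2, (bmul _ _ _ _).2.2.1, sub_zero]
    rw [sub_zero] at e3
    have e4 := hu _ _ hη e3
    rw [e4, e2] at hd
    exact (binj _ _ _ _ hd).1.symm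
  -- Hermitian values
  have hDherm : ∀ X : Matrix ι ι ℂ, (DH X)ᴴ = DH X := by
    intro X
    obtain ⟨η, _, _, hd⟩ := hDH' X
    have e1 := dX_herm a b (bd X η)
    rw [hd, (bun _ _).1] at e1
    exact (binj _ _ _ _ e1).1
  refine ⟨hreal, ?_⟩
  intro X
  obtain ⟨P, hP⟩ : ∃ P : Matrix ι ι ℂ, P = (1 / 2 : ℂ) • (X + Xᴴ) := ⟨_, rfl⟩
  obtain ⟨Q, hQ⟩ : ∃ Q : Matrix ι ι ℂ, Q = (Complex.I / 2) • (X - Xᴴ) := ⟨_, rfl⟩
  have hPh : Pᴴ = P := by
    rw [hP, conjTranspose_smul, conjTranspose_add, conjTranspose_conjTranspose, add_comm]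
    congr 1
    simp
  have hQh : Qᴴ = Q := by
    rw [hQ, conjTranspose_smul, conjTranspose_sub, conjTranspose_conjTranspose]
    have e1 : star (Complex.I / 2) = -(Complex.I / 2) := by
      rw [Complex.star_def, map_div₀, Complex.conj_I, map_ofNat, neg_div]
    rw [e1, neg_smul, ← smul_neg, neg_sub]
  have hX : X = P + (-Complex.I) • Q := by
    rw [hP, hQ, smul_smul]
    have e1 : -Complex.I * (Complex.I / 2) = 1 / 2 := by
      linear_combination (-1 / 2 : ℂ) * Complex.I_mul_I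
    rw [e1, ← smul_add, add_add_sub_cancel, ← two_smul ℂ X, smul_smul]
    norm_num
  have hIX : Complex.I • X = Q + Complex.I • P := by
    rw [hX, smul_add, smul_smul]
    have e1 : Complex.I * -Complex.I = 1 := by
      linear_combination (-1 : ℂ) * Complex.I_mul_I
    rw [e1, one_smul, add_comm]
  have hPH : P.IsHermitian := hPh
  have hQH : Q.IsHermitian := hQh
  have hD1 : DH X = DH P + (-Complex.I) • br Q H := by
    rw [hX, hadd, hskew ((-Complex.I) • Q), br_smul_left]
    rw [conjTranspose_smul, hQh, Complex.star_def, map_neg, Complex.conj_I, neg_smul, neg_smul,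
      neg_neg]
  have hD2 : DH (Complex.I • X) = DH Q + Complex.I • br P H := by
    rw [hIX, hadd, hskew (Complex.I • P), br_smul_left]
    rw [conjTranspose_smul, hPh, Complex.star_def, Complex.conj_I, neg_smul]
  -- the traces
  obtain ⟨τ, hτ⟩ : ∃ τ : ℂ, τ = trace (br P Q * H) := ⟨_, rfl⟩
  have hτ2 : trace (br Q P * H) = -τ := by
    rw [hτ, br_anti Q P, neg_mul, trace_neg]
  have hT1 : trace (X * DH X) = trace (P * DH P) + (-Complex.I) * τ +
      (-Complex.I) * trace (Q * DH P) := by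
    rw [hD1]
    conv_lhs => rw [hX]
    rw [add_mul, mul_add, mul_add, trace_add, trace_add, trace_add, smul_mul_assoc,
      smul_mul_assoc, mul_smul_comm, mul_smul_comm, trace_smul, trace_smul, trace_smul,
      trace_smul, trace_self_br, trace_br_cyc, ← hτ]
    simp only [smul_eq_mul, mul_zero]
    ring
  have hT2 : trace ((Complex.I • X) * DH (Complex.I • X)) = trace (Q * DH Q) +
      (-Complex.I) * τ + Complex.I * trace (P * DH Q) := by
    rw [hD2]
    conv_lhs => rw [hIX]
    rw [add_mul, mul_add, mul_add, trace_add, trace_add, trace_add, smul_mul_assoc,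
      smul_mul_assoc, mul_smul_comm, mul_smul_comm, trace_smul, trace_smul, trace_smul,
      trace_smul, trace_self_br, trace_br_cyc, hτ2]
    simp only [smul_eq_mul, mul_zero]
    ring
  have hi1 : (trace (Q * DH P)).im = 0 := trace_herm_im hQh (hDherm P)
  have hi2 : (trace (P * DH Q)).im = 0 := trace_herm_im hPh (hDherm Q)
  have hB : BB a b θ X X = BB a b θ P P + BB a b θ Q Q - Complex.I * τ := by
    have f1 : ∀ Y, BB a b θ X Y = BB a b θ P Y + Complex.I * BB a b θ Q Y := by
      intro Y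
      have f2 : BB a b θ Y X = BB a b θ Y P + (-Complex.I) * BB a b θ Y Q := by
        conv_lhs => rw [hX]
        rw [Badd, Bsmul]
      rw [Bsymm Y X, f2, star_add, star_mul', ← Bsymm Y P, ← Bsymm Y Q, Complex.star_def,
        map_neg, Complex.conj_I, neg_neg]
    have f3 : ∀ Y, BB a b θ Y X = BB a b θ Y P + (-Complex.I) * BB a b θ Y Q := by
      intro Y
      conv_lhs => rw [hX]
      rw [Badd, Bsmul]
    have f4 := Bimag P Q hPH hQH
    rw [← hτ] at f4
    rw [f1, f3, f3, ← f4]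
    linear_combination (- BB a b θ Q Q) * Complex.I_mul_I
  have hr1 := hreal P P hPH hPH
  have hr2 := hreal Q Q hQH hQH
  rw [hT1, hT2, hB]
  simp only [Complex.add_re, Complex.sub_re, Complex.mul_re, Complex.neg_re, Complex.neg_im,
    Complex.I_re, Complex.I_im, hi1, hi2]
  rw [hr1, hr2]
  ring

end Pool.Agent.Helper11.NO
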